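import Pool.Agent.Helper62_GB.Stmt
import Pool.Agent.Helper69_Fine.Vert

/-!
Module LEOF: inclusion of the sets of normals.
-/

namespace Pool.Agent.GB.H77

open MeasureTheory Complex Filter Topology ProbabilityTheory Pool.Agent.H16Iso Pool.Agent.H62T
open Pool.Agent.H16F
open scoped ENNReal NNReal Fin.NatCast

section Nm

variable {n : ℕ} [NeZero n] {u : Fin n → ℂ} {β : Fin n → ℝ}

theorem ip_exp_exp {v : ℂ} (hv : ‖v‖ = 1) (a b : ℝ) :
    ip (v * Complex.exp (a * I)) (v * Complex.exp (b * I)) = Real.cos (a - b) := by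
  rw [H69.ip_rot, H69.ip_comm v, H69.ip_rot, H69.ip_I_rot hv, H69.ip_self hv, H69.ip_comm _ v,
    H69.ip_mul_I_self, Real.cos_sub]
  ring

/-- a midpoint of a gap is far from all normals -/
theorem ip_mid_le (N : Nm u β) (j k : Fin n) :
    ip (u k) (u j * Complex.exp ((β j / 2 : ℝ) * I)) ≤ Real.cos (β j / 2) := by
  obtain ⟨m, hm, hk⟩ : ∃ m : ℕ, m < n ∧ k = j + (m : Fin n) := by
    refine ⟨(k - j : Fin n).val, (k - j).isLt, ?_⟩
    rw [Fin.cast_val_eq_self]
    simp
  rw [hk, H69.u_add N, ip_exp_exp (N.unit j)]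
  have hj0 := N.pos j
  have hj1 := N.lt j
  rcases Nat.eq_zero_or_pos m with h0 | h0
  · rw [h0, H69.S_zero, zero_sub, Real.cos_neg]
  · have h1 : β j ≤ H69.S β j m := by
      have := H69.S_le N j (m := 1) (m' := m) h0
      rwa [H69.S_one] at this
    have h2 : H69.S β j m ≤ 2 * Real.pi := by
      have := H69.S_le N j hm.le
      rwa [H69.S_full N] at this
    rcases le_total (H69.S β j m - β j / 2) Real.pi with h3 | h3
    · exact Real.cos_le_cos_of_nonneg_of_le_pi (by linarith) h3 (by linarith)
    · have h4 : Real.cos (H69.S β j m - β j / 2) =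
          Real.cos (2 * Real.pi - (H69.S β j m - β j / 2)) := by
        rw [Real.cos_two_pi_sub]
      rw [h4]
      exact Real.cos_le_cos_of_nonneg_of_le_pi (by linarith) (by linarith) (by linarith)

/-- every direction is close to a normal -/
theorem exists_ip_ge (N : Nm u β) {B : ℝ} (hB : ∀ i, β i ≤ B) (hBπ : B ≤ Real.pi) {w : ℂ}
    (hw : ‖w‖ = 1) : ∃ i, Real.cos (B / 2) ≤ ip (u i) w := by
  obtain ⟨i, hi⟩ := Finite.exists_max (fun i => ip (u i) w)
  refine ⟨i, ?_⟩
  -- the angle of `w` seen from `u i`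
  set z : ℂ := w * (starRingEnd ℂ) (u i) with hz
  set φ := Complex.arg z with hφ
  have hz1 : ‖z‖ = 1 := by rw [hz, norm_mul, hw, RCLike.norm_conj, N.unit, mul_one]
  have hwe : w = u i * Complex.exp (φ * I) := by
    have h1 : z = Complex.exp (φ * I) := by
      have h2 := Complex.norm_mul_exp_arg_mul_I z
      rw [hz1] at h2
      rw [← hφ] at h2
      rw [← h2]
      simp
    rw [← h1, hz]
    have h3 : u i * (w * (starRingEnd ℂ) (u i)) = w * (u i * (starRingEnd ℂ) (u i)) := by ring
    rw [h3, Complex.mul_conj, Complex.normSq_eq_norm_sq, N.unit]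
    simp
  have hφ1 := Complex.neg_pi_lt_arg z
  have hφ2 := Complex.arg_le_pi z
  rw [← hφ] at hφ1 hφ2
  have e0 : ip (u i) w = Real.cos φ := by
    have h := ip_exp_exp (N.unit i) 0 φ
    simp only [ofReal_zero, zero_mul, Complex.exp_zero, mul_one, zero_sub, Real.cos_neg] at h
    rw [← h, ← hwe]
  rcases le_total 0 φ with h0 | h0
  · have h1 := hi (i + 1)
    have e1 : ip (u (i + 1)) w = Real.cos (β i - φ) := by
      rw [N.step, ← ip_exp_exp (N.unit i), ← hwe]
    rw [e1, e0] at h1
    have h2 : φ ≤ B / 2 := by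
      by_contra hc
      push Not at hc
      have h3 : |β i - φ| < φ := by
        rw [abs_lt]
        constructor
        · linarith [N.pos i]
        · linarith [hB i]
      have h4 := Real.cos_lt_cos_of_nonneg_of_le_pi (abs_nonneg _) hφ2 h3
      rw [Real.cos_abs] at h4
      linarith
    rw [e0]
    exact Real.cos_le_cos_of_nonneg_of_le_pi h0 (by linarith) h2
  · have h1 := hi (i - 1)
    have e1 : ip (u (i - 1)) w = Real.cos (β (i - 1) + φ) := by
      have h2 : u i = u (i - 1) * Complex.exp (β (i - 1) * I) := by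
        rw [← N.step, sub_add_cancel]
      have h3 : w = u (i - 1) * Complex.exp ((β (i - 1) + φ : ℝ) * I) := by
        rw [hwe, h2, mul_assoc, ← Complex.exp_add]
        congr 2
        push_cast
        ring
      have h4 := ip_exp_exp (N.unit (i - 1)) 0 (β (i - 1) + φ)
      simp only [ofReal_zero, zero_mul, Complex.exp_zero, mul_one, zero_sub,
        Real.cos_neg] at h4
      rw [← h3] at h4
      exact h4
    rw [e1, e0] at h1
    have h2 : -φ ≤ B / 2 := by
      by_contra hc
      push Not at hc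
      have h3 : |β (i - 1) + φ| < -φ := by
        rw [abs_lt]
        constructor
        · linarith [N.pos (i - 1)]
        · linarith [hB (i - 1)]
      have h4 := Real.cos_lt_cos_of_nonneg_of_le_pi (abs_nonneg _) (by linarith) h3
      rw [Real.cos_abs, Real.cos_neg] at h4
      linarith
    rw [e0, ← Real.cos_neg φ]
    exact Real.cos_le_cos_of_nonneg_of_le_pi (by linarith) (by linarith) h2

end Nm

/-- LEOF -/
theorem leof : LeofStatement := by
  intro h a b hab
  choose ι hι using hab
  have hmono : StrictMono ι := by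
    intro i i' hii
    have h1 := a.sorted hii
    simp only at h1
    rw [← hι i, ← hι i'] at h1
    exact b.sorted.lt_iff_lt.1 h1
  refine ⟨⟨ι, hmono, hι⟩, ?_, ?_⟩
  · have h1 := Fintype.card_le_of_injective ι hmono.injective
    rw [Fintype.card_fin, Fintype.card_fin] at h1
    omega
  · intro B hB j
    by_contra hc
    push Not at hc
    have hj1 := b.cp.lt j
    have hw : ‖b.u j * Complex.exp ((b.β j / 2 : ℝ) * I)‖ = 1 := by
      rw [norm_mul, b.cp.unit, Complex.norm_exp_ofReal_mul_I, mul_one]
    obtain ⟨i, hi⟩ := exists_ip_ge a.cp.toNm hB (by linarith) hw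
    have h1 := ip_mid_le b.cp.toNm j (ι i)
    rw [hι i] at h1
    have h0 : 0 < B := lt_of_lt_of_le (a.cp.pos 0) (hB 0)
    have h2 : Real.cos (b.β j / 2) < Real.cos (B / 2) :=
      Real.cos_lt_cos_of_nonneg_of_le_pi (by linarith) (by linarith [Real.pi_pos]) (by linarith)
    linarith

end Pool.Agent.GB.H77
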