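import Pool.Agent.Helper62_GB.Stmt
import Pool.Agent.Helper59_TRI.Area
import Pool.Agent.Helper1_Gen.EigMono

/-!
Module BND: bound for the diameter in terms of the area and the first eigenvalue.
-/

namespace Pool.Agent.GB.H77

open MeasureTheory Complex Filter Topology ProbabilityTheory Pool.Agent.H16Iso Pool.Agent.H62T
open Pool.Agent.H16F
open scoped ENNReal NNReal

/-- a convex set which contains the triangle with vertices `p`, `p + e`, `p + f` has area at
least `dt e f / 4` -/
theorem area_ge {Ω : Set ℂ} (hc : Convex ℝ Ω) (hfin : volume Ω ≠ ⊤) {p e f : ℂ} (hp : p ∈ Ω)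
    (he : p + e ∈ Ω) (hf : p + f ∈ Ω) (hd : 0 < dt e f) : dt e f / 4 ≤ (volume Ω).toReal := by
  set w0 : ℂ := ⟨f.im, -f.re⟩ with hw0
  set w1 : ℂ := ⟨-e.im, e.re⟩ with hw1
  have hdw : dt w0 w1 = dt e f := by
    simp only [dt, hw0, hw1]; ring
  have hsub : {x : ℂ | (ip w0 p ≤ ip w0 x ∧ ip w0 x ≤ ip w0 p + dt e f / 2) ∧
      ip w1 p ≤ ip w1 x ∧ ip w1 x ≤ ip w1 p + dt e f / 2} ⊆ Ω := by
    rintro x ⟨⟨h1, h2⟩, h3, h4⟩
    set a := (ip w0 x - ip w0 p) / dt e f with ha
    set b := (ip w1 x - ip w1 p) / dt e f with hb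
    have ha0 : 0 ≤ a := div_nonneg (by linarith) hd.le
    have hb0 : 0 ≤ b := div_nonneg (by linarith) hd.le
    have ha1 : a ≤ 1 / 2 := by
      rw [ha, div_le_iff₀ hd]; linarith
    have hb1 : b ≤ 1 / 2 := by
      rw [hb, div_le_iff₀ hd]; linarith
    have hx : x = (1 - a - b) • p + (a • (p + e) + b • (p + f)) := by
      have ha' : a * dt e f = ip w0 x - ip w0 p := by rw [ha, div_mul_cancel₀ _ hd.ne']
      have hb' : b * dt e f = ip w1 x - ip w1 p := by rw [hb, div_mul_cancel₀ _ hd.ne']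
      simp only [ip, hw0, hw1] at ha' hb'
      have hd' : dt e f ≠ 0 := hd.ne'
      apply Complex.ext
      · apply mul_left_cancel₀ hd'
        simp only [add_re, real_smul, mul_re, ofReal_re, ofReal_im, zero_mul, sub_zero]
        have : dt e f * ((1 - a - b) * p.re + (a * (p.re + e.re) + b * (p.re + f.re))) =
          dt e f * p.re + (a * dt e f) * e.re + (b * dt e f) * f.re := by ring
        rw [this, ha', hb']
        simp only [dt]
        ring
      · apply mul_left_cancel₀ hd'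
        simp only [add_im, real_smul, mul_im, ofReal_re, ofReal_im, zero_mul, add_zero]
        have : dt e f * ((1 - a - b) * p.im + (a * (p.im + e.im) + b * (p.im + f.im))) =
          dt e f * p.im + (a * dt e f) * e.im + (b * dt e f) * f.im := by ring
        rw [this, ha', hb']
        simp only [dt]
        ring
    rw [hx]
    have h5 : (1 - a - b) • p + (a • (p + e) + b • (p + f)) =
        ∑ i : Fin 3, (![1 - a - b, a, b] : Fin 3 → ℝ) i • (![p, p + e, p + f] : Fin 3 → ℂ) i := by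
      rw [Fin.sum_univ_three, ← add_assoc]
      rfl
    rw [h5]
    refine hc.sum_mem (fun i _ => ?_) ?_ (fun i _ => ?_)
    · fin_cases i
      · change 0 ≤ 1 - a - b
        linarith
      · exact ha0
      · exact hb0
    · rw [Fin.sum_univ_three]
      change 1 - a - b + a + b = 1
      ring
    · fin_cases i
      · exact hp
      · exact he
      · exact hf
  have h1 := H59.par_area (w0 := w0) (w1 := w1) (by rw [hdw]; exact hd) (ip w0 p)
    (ip w0 p + dt e f / 2) (ip w1 p) (ip w1 p + dt e f / 2)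
  rw [hdw] at h1
  have h2 : (volume {x : ℂ | (ip w0 p ≤ ip w0 x ∧ ip w0 x ≤ ip w0 p + dt e f / 2) ∧
      ip w1 p ≤ ip w1 x ∧ ip w1 x ≤ ip w1 p + dt e f / 2}).toReal ≤ (volume Ω).toReal :=
    ENNReal.toReal_mono hfin (measure_mono hsub)
  rw [h1] at h2
  have h3 : max (ip w0 p + dt e f / 2 - ip w0 p) 0 = dt e f / 2 := by
    rw [add_sub_cancel_left, max_eq_left (by linarith)]
  have h4 : max (ip w1 p + dt e f / 2 - ip w1 p) 0 = dt e f / 2 := by
    rw [add_sub_cancel_left, max_eq_left (by linarith)]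
  rw [h3, h4] at h2
  have h5 : dt e f / 2 * (dt e f / 2) / dt e f = dt e f / 4 := by
    have := hd.ne'
    field_simp
    ring
  rwa [h5] at h2

theorem area_ge_abs {Ω : Set ℂ} (hc : Convex ℝ Ω) (hfin : volume Ω ≠ ⊤) {p e f : ℂ} (hp : p ∈ Ω)
    (he : p + e ∈ Ω) (hf : p + f ∈ Ω) : |dt e f| / 4 ≤ (volume Ω).toReal := by
  rcases lt_trichotomy 0 (dt e f) with h | h | h
  · rw [abs_of_pos h]
    exact area_ge hc hfin hp he hf h
  · rw [← h, abs_zero, zero_div]
    exact ENNReal.toReal_nonneg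
  · have h1 : dt f e = -dt e f := by simp only [dt]; ring
    rw [abs_of_neg h, ← h1]
    exact area_ge hc hfin hp hf he (by rw [h1]; linarith)

/-- BND -/
theorem bnd : BndStatement := by
  intro A L
  set L' := max L 1 with hL'
  have hL1 : 1 ≤ L' := le_max_right _ _
  have hLL : L ≤ L' := le_max_left _ _
  set s : ℝ := 1 / (4 * L') with hs
  have hs0 : 0 < s := by positivity
  -- a strip of half-width `s` is too narrow
  have hs1 : L < 1 / (4 * s ^ 2) := by
    have h1 : 1 / (4 * s ^ 2) = 4 * L' ^ 2 := by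
      rw [hs]; field_simp
    rw [h1]
    nlinarith
  refine ⟨4 * |A| / s + 1, by positivity, ?_⟩
  intro Ω hΩ hA hL
  obtain ⟨p, hp⟩ := hΩ.ne
  refine ⟨p, fun q hq => ?_⟩
  rw [Metric.mem_ball, dist_eq_norm]
  by_contra hc
  push Not at hc
  have hfin : volume Ω ≠ ⊤ := hΩ.bd.measure_lt_top.ne
  have hR : 0 < 4 * |A| / s + 1 := by positivity
  have hqp : 0 < ‖q - p‖ := lt_of_lt_of_le hR hc
  -- the unit normal
  set ν : ℂ := ⟨-(q - p).im / ‖q - p‖, (q - p).re / ‖q - p‖⟩ with hν
  have hν1 : ‖ν‖ = 1 := by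
    have h1 : ν = (((‖q - p‖)⁻¹ : ℝ) : ℂ) * ((q - p) * I) := by
      apply Complex.ext
      · simp only [hν, mul_re, mul_im, ofReal_re, ofReal_im, I_re, I_im]
        ring
      · simp only [hν, mul_re, mul_im, ofReal_re, ofReal_im, I_re, I_im]
        ring
    rw [h1, norm_mul, norm_mul, Complex.norm_I, mul_one, Complex.norm_real, norm_inv, norm_norm,
      inv_mul_cancel₀ hqp.ne']
  obtain ⟨z, hz, hzs⟩ : ∃ z ∈ Ω, s < |(z * (starRingEnd ℂ) ν).re - (p * (starRingEnd ℂ) ν).re| := by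
    by_contra hn
    push Not at hn
    have h1 := H1Gen.dirEig_ge_of_strip hΩ.op hΩ.ne hν1 hs0 hn 0
    linarith
  have hdt : |dt (q - p) (z - p)| = ‖q - p‖ *
      |(z * (starRingEnd ℂ) ν).re - (p * (starRingEnd ℂ) ν).re| := by
    rw [← abs_of_pos hqp, ← abs_mul]
    congr 1
    simp only [dt, hν, mul_re, conj_re, conj_im, sub_re, sub_im]
    field_simp
    ring
  have h1 := area_ge_abs hΩ.cv hfin hp (e := q - p) (f := z - p) (by simpa using hq)
    (by simpa using hz)
  rw [hdt] at h1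
  have h2 : (4 * |A| / s + 1) * s ≤ ‖q - p‖ *
      |(z * (starRingEnd ℂ) ν).re - (p * (starRingEnd ℂ) ν).re| :=
    mul_le_mul hc hzs.le hs0.le hqp.le
  have h3 : (4 * |A| / s + 1) * s = 4 * |A| + s := by
    field_simp
  have h4 := le_abs_self A
  linarith

end Pool.Agent.GB.H77
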