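import Pool.Agent.Helper77_GB.Fcov
import Pool.Agent.Helper62_GB.Stmt3

/-!
Module EXN2: the approximating sequence of circumscribed polygons, with prescribed normals.
-/

namespace Pool.Agent.GB.H77

open MeasureTheory Complex Filter Topology ProbabilityTheory Pool.Agent.H16Iso Pool.Agent.H62T
open Pool.Agent.H16F
open scoped ENNReal NNReal

/-- EXN2 -/
theorem exn2 (hSfb : SfbStatement) (hFcov : FcovStatement) (hSort : SortStatement)
    (hLeof : LeofStatement) : Exn2Statement := by
  classical
  intro h hh hinf M hM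
  obtain ⟨-, -, -, ⟨r, ρ, hr, hrρ⟩, -⟩ := hSfb.2.2.1 h hh
  have hρ : 0 < ρ := by
    have := hrρ 1 (by simp)
    linarith
  have hpos : ∀ j : ℕ, (0 : ℝ) < 1 / ((j : ℝ) + 1) := fun j => by positivity
  choose Fc hFc1 hFc2 using fun j : ℕ => hFcov h hh (1 / ((j : ℝ) + 1)) (hpos j)
  let g : ℕ ↪ SS h := Set.Infinite.natEmbedding (SS h) hinf
  let f : ℕ → ℂ := fun i => (g i : ℂ)
  have hf : Function.Injective f := fun a b hab => g.injective (Subtype.ext hab)
  let N : ℕ → Finset ℂ := fun j =>
    (Finset.range (j + 1)).biUnion (fun i => Fc i ∪ M i) ∪ (Finset.range (j + 3)).image f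
  have hNmem : ∀ j, ∀ u ∈ N j, u ∈ SS h := by
    intro j u hu
    rcases Finset.mem_union.1 hu with hu | hu
    · obtain ⟨i, -, hi⟩ := Finset.mem_biUnion.1 hu
      rcases Finset.mem_union.1 hi with hi | hi
      · exact hFc1 i u hi
      · exact hM i u hi
    · obtain ⟨i, -, rfl⟩ := Finset.mem_image.1 hu
      exact (g i).2
  have hNmono : ∀ i j, i ≤ j → N i ⊆ N j := by
    intro i j hij
    refine Finset.union_subset_union ?_ ?_
    · exact Finset.biUnion_subset_biUnion_of_subset_left _ (Finset.range_subset_range.2 (by omega))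
    · exact Finset.image_subset_image (Finset.range_subset_range.2 (by omega))
  have hNcard : ∀ j, j + 3 ≤ (N j).card := by
    intro j
    have h1 : ((Finset.range (j + 3)).image f).card = j + 3 := by
      rw [Finset.card_image_of_injective _ hf, Finset.card_range]
    calc j + 3 = ((Finset.range (j + 3)).image f).card := h1.symm
      _ ≤ (N j).card := Finset.card_le_card Finset.subset_union_right
  have hFN : ∀ j, Fc j ⊆ N j := by
    intro j u hu
    exact Finset.mem_union_left _ (Finset.mem_biUnion.2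
      ⟨j, Finset.mem_range.2 (by omega), Finset.mem_union_left _ hu⟩)
  have hNap : ∀ j, ∀ x : ℂ, (∀ u ∈ N j, ip u x ≤ h u) → ∀ u, ip u x ≤ (1 + 1 / ((j : ℝ) + 1)) * h u :=
    fun j x hx => hFc2 j x fun u hu => hx u (hFN j hu)
  have hbd : ∀ j, Bornology.IsBounded {x : ℂ | ∀ u ∈ N j, ip u x ≤ h u} := by
    intro j
    refine (Metric.isBounded_iff_subset_closedBall (0 : ℂ)).2 ⟨2 * ρ, fun x hx => ?_⟩
    rw [mem_closedBall_zero_iff]
    refine norm_le_of_ip (by linarith) fun u hu => ?_
    refine le_trans (hNap j x hx u) ?_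
    have h1 : 1 / ((j : ℝ) + 1) ≤ 1 := by
      rw [div_le_one (by positivity)]
      have : (0 : ℝ) ≤ j := Nat.cast_nonneg j
      linarith
    have h2 := hrρ u hu
    have h3 : 0 < h u := lt_of_lt_of_le hr h2.1
    nlinarith [hpos j]
  choose a ha using fun j => hSort h hh (N j) (hNmem j) (hbd j)
  have hle : ∀ i j, i ≤ j → (a i).Le (a j) ∧ (a i).m ≤ (a j).m ∧
      ∀ B : ℝ, (a i).Sm B → (a j).Sm B := by
    intro i j hij
    refine hLeof h (a i) (a j) fun k => ?_
    exact (ha j _).1 (hNmono i j hij ((ha i _).2 ⟨k, rfl⟩))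
  obtain ⟨k0, hk0⟩ := Finite.exists_max (a 0).β
  refine ⟨(a 0).β k0, a, (a 0).cp.lt k0, fun j => (hle 0 j (Nat.zero_le _)).2.2 _ hk0, ?_,
    fun i j hij => (hle i j hij).1, ?_, ?_⟩
  · intro j
    have hinj : Function.Injective (a j).u := by
      intro x y hxy
      exact (a j).sorted.injective (congrArg Complex.arg hxy)
    have h1 : N j = Finset.univ.image (a j).u := by
      ext z
      rw [ha j z]
      simp
    have h2 := hNcard j
    rw [h1, Finset.card_image_of_injective _ hinj, Finset.card_univ, Fintype.card_fin] at h2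
    omega
  · intro ε hε
    have hlim : Tendsto (fun j : ℕ => 1 / ((j : ℝ) + 1)) atTop (𝓝 0) :=
      tendsto_one_div_add_atTop_nhds_zero_nat
    have hev : ∀ᶠ j : ℕ in atTop, 1 / ((j : ℝ) + 1) < ε := hlim.eventually_lt_const hε
    filter_upwards [hev] with j hj
    intro x hx u
    have h1 : ∀ v ∈ N j, ip v x ≤ h v := by
      intro v hv
      obtain ⟨i, rfl⟩ := (ha j v).1 hv
      exact (hx i).le
    by_cases hu : u = 0
    · rw [hu, ip_zero_left, sf_zero hh.sub, mul_zero]
    · refine le_trans (hNap j x h1 u) ?_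
      exact mul_le_mul_of_nonneg_right (by linarith) (hh.pos u hu).le
  · intro j u hu
    refine (ha j u).1 (Finset.mem_union_left _ (Finset.mem_biUnion.2
      ⟨j, Finset.mem_range.2 (by omega), Finset.mem_union_right _ hu⟩))

end Pool.Agent.GB.H77
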