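import Pool.Agent.Helper62_GB.Stmt

/-!
Module FCOV: finitely many directions of strict sublinearity give a good approximation.
-/

namespace Pool.Agent.GB.H77

open MeasureTheory Complex Filter Topology ProbabilityTheory Pool.Agent.H16Iso Pool.Agent.H62T
open Pool.Agent.H16F
open scoped ENNReal NNReal

theorem ip_smul_left (r : ℝ) (z w : ℂ) : ip ((r : ℂ) * z) w = r * ip z w := by
  simp only [ip, mul_re, mul_im, ofReal_re, ofReal_im]; ring

theorem ip_smul_right (r : ℝ) (z w : ℂ) : ip z ((r : ℂ) * w) = r * ip z w := by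
  simp only [ip, mul_re, mul_im, ofReal_re, ofReal_im]; ring

theorem ip_zero_left (w : ℂ) : ip 0 w = 0 := by simp [ip]

theorem continuous_ip : Continuous fun p : ℂ × ℂ => ip p.1 p.2 := by
  unfold ip
  fun_prop

theorem sf_zero {h : ℂ → ℝ} (hs : Sublin h) : h 0 = 0 := by
  have := hs.2 0 0 le_rfl
  simpa using this

/-- a vector is a positive multiple of a unit vector -/
theorem exists_unit {u : ℂ} (hu : u ≠ 0) : ∃ v : ℂ, ‖v‖ = 1 ∧ u = (‖u‖ : ℂ) * v := by
  have h1 : (‖u‖ : ℂ) ≠ 0 := by exact_mod_cast norm_ne_zero_iff.2 hu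
  refine ⟨(‖u‖ : ℂ)⁻¹ * u, ?_, ?_⟩
  · rw [norm_mul, norm_inv, Complex.norm_real, norm_norm, inv_mul_cancel₀ (norm_ne_zero_iff.2 hu)]
  · rw [← mul_assoc, mul_inv_cancel₀ h1, one_mul]

/-- an inequality for unit vectors extends to all vectors -/
theorem le_of_unit {k : ℂ → ℝ} (hk : Sublin k) {x : ℂ} (h : ∀ u, ‖u‖ = 1 → ip u x ≤ k u) (u : ℂ) :
    ip u x ≤ k u := by
  by_cases hu : u = 0
  · rw [hu, ip_zero_left, sf_zero hk]
  · obtain ⟨v, hv, huv⟩ := exists_unit hu
    rw [huv, ip_smul_left, hk.2 _ _ (norm_nonneg _)]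
    exact mul_le_mul_of_nonneg_left (h v hv) (norm_nonneg _)

theorem sublin_smul {h : ℂ → ℝ} (hs : Sublin h) {c : ℝ} (hc : 0 ≤ c) :
    Sublin fun u => c * h u := by
  refine ⟨fun a b => ?_, fun r a hr => ?_⟩
  · rw [← mul_add]
    exact mul_le_mul_of_nonneg_left (hs.1 a b) hc
  · change c * h (r * a) = r * (c * h a)
    rw [hs.2 r a hr]; ring

theorem norm_le_of_ip {x : ℂ} {ρ : ℝ} (hρ : 0 ≤ ρ) (h : ∀ u : ℂ, ‖u‖ = 1 → ip u x ≤ ρ) : ‖x‖ ≤ ρ := by
  by_cases hx : x = 0
  · rw [hx, norm_zero]; exact hρ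
  · obtain ⟨v, hv, hxv⟩ := exists_unit hx
    have h1 := h v hv
    have h2 : ip v v = 1 := by
      have h : normSq v = 1 := by rw [normSq_eq_norm_sq, hv]; norm_num
      rw [normSq_apply] at h
      simp only [ip]; linarith
    rw [hxv, ip_smul_right, h2, mul_one] at h1
    exact h1

/-- FCOV -/
theorem fcov (hSfb : SfbStatement) (hSsb : SsbStatement) : FcovStatement := by
  intro h hh ε hε
  have hcont : Continuous h := (hSfb.1 h hh.sub).1
  obtain ⟨-, -, -, ⟨r, ρ, hr, hrρ⟩, -⟩ := hSfb.2.2.1 h hh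
  have hρ : 0 < ρ := by
    have := hrρ 1 (by simp)
    linarith
  have h1ε : (0 : ℝ) < 1 + ε := by linarith
  -- the frontier of `(1 + ε) Bd h`
  let T : Set (ℂ × ℂ) := {p | (‖p.1‖ = 1 ∧ ‖p.2‖ ≤ (1 + ε) * ρ) ∧
    (∀ v, ip v p.2 ≤ (1 + ε) * h v) ∧ ip p.1 p.2 = (1 + ε) * h p.1}
  have hTc : IsCompact T := by
    have h1 : IsCompact (Metric.sphere (0 : ℂ) 1 ×ˢ Metric.closedBall (0 : ℂ) ((1 + ε) * ρ)) :=
      (isCompact_sphere _ _).prod (isCompact_closedBall _ _)
    refine h1.of_isClosed_subset ?_ ?_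
    · have e : T = {p : ℂ × ℂ | ‖p.1‖ = 1} ∩ {p | ‖p.2‖ ≤ (1 + ε) * ρ} ∩
          ((⋂ v, {p | ip v p.2 ≤ (1 + ε) * h v}) ∩ {p | ip p.1 p.2 = (1 + ε) * h p.1}) := by
        ext p
        simp only [T, Set.mem_ofPred_eq, Set.mem_inter_iff, Set.mem_iInter]
      rw [e]
      refine ((isClosed_eq (by fun_prop) continuous_const).inter
        (isClosed_le (by fun_prop) continuous_const)).inter ((isClosed_iInter fun v => ?_).inter ?_)
      · exact isClosed_le (by unfold ip; fun_prop) continuous_const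
      · exact isClosed_eq continuous_ip (by fun_prop)
    · rintro ⟨p, x⟩ ⟨⟨h2, h3⟩, -⟩
      simp only [Set.mem_prod, mem_sphere_zero_iff_norm, Metric.mem_closedBall, dist_zero_right]
      exact ⟨h2, h3⟩
  have hAc : IsCompact (Prod.snd '' T) := hTc.image continuous_snd
  have hcover : Prod.snd '' T ⊆ ⋃ u : SS h, {x | h u < ip u x} := by
    rintro _ ⟨⟨p, x⟩, ⟨⟨h2, -⟩, h3, h4⟩, rfl⟩
    by_contra hc
    simp only [Set.mem_iUnion, Set.mem_ofPred_eq, not_exists, not_lt] at hc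
    have h5 := (hSsb h hh).2 x (fun u hu => hc ⟨u, hu⟩) p
    have hp : p ≠ 0 := by
      intro h0
      rw [h0, norm_zero] at h2
      exact zero_ne_one h2
    have h6 := hh.pos p hp
    simp only at h4
    nlinarith
  obtain ⟨N, hN⟩ := hAc.elim_finite_subcover _ (fun u : SS h =>
    isOpen_lt continuous_const (by unfold ip; fun_prop)) hcover
  classical
  refine ⟨N.image Subtype.val, ?_, ?_⟩
  · intro u hu
    obtain ⟨v, -, rfl⟩ := Finset.mem_image.1 hu
    exact v.2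
  · intro x hx
    have hx' : ∀ u ∈ N, ip u x ≤ h u := fun u hu => hx u (Finset.mem_image_of_mem _ hu)
    refine le_of_unit (sublin_smul hh.sub h1ε.le) ?_
    by_contra hc
    push Not at hc
    obtain ⟨v, hv, hvx⟩ := hc
    -- the largest ratio
    have hne : ∀ u : ℂ, ‖u‖ = 1 → 0 < h u := fun u hu => lt_of_lt_of_le hr (hrρ u hu).1
    obtain ⟨w, hw, hwmax⟩ := (isCompact_sphere (0 : ℂ) 1).exists_isMaxOn ⟨v, by simpa using hv⟩
      (f := fun u => ip u x / ((1 + ε) * h u)) (by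
        refine ContinuousOn.div ?_ ?_ ?_
        · unfold ip; fun_prop
        · fun_prop
        · intro u hu
          exact (mul_pos h1ε (hne u (by simpa using hu))).ne')
    have hw1 : ‖w‖ = 1 := by simpa using hw
    set g := ip w x / ((1 + ε) * h w) with hg
    have hg1 : 1 < g := by
      have h1 : ip v x / ((1 + ε) * h v) ≤ g := hwmax (by simpa using hv)
      refine lt_of_lt_of_le ?_ h1
      rw [lt_div_iff₀ (mul_pos h1ε (hne v hv))]
      linarith
    have hg0 : 0 < g := by linarith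
    have hmax : ∀ u : ℂ, ‖u‖ = 1 → ip u x ≤ g * ((1 + ε) * h u) := by
      intro u hu
      have h1 : ip u x / ((1 + ε) * h u) ≤ g := hwmax (by simpa using hu)
      rwa [div_le_iff₀ (mul_pos h1ε (hne u hu))] at h1
    have hy : ∀ u, ip u (((g⁻¹ : ℝ) : ℂ) * x) ≤ (1 + ε) * h u := by
      refine le_of_unit (sublin_smul hh.sub h1ε.le) fun u hu => ?_
      rw [ip_smul_right, inv_mul_le_iff₀ hg0]
      exact hmax u hu
    have hyT : ((w, ((g⁻¹ : ℝ) : ℂ) * x) : ℂ × ℂ) ∈ T := by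
      refine ⟨⟨hw1, ?_⟩, hy, ?_⟩
      · refine norm_le_of_ip (by positivity) fun u hu => ?_
        refine le_trans (hy u) ?_
        exact mul_le_mul_of_nonneg_left (hrρ u hu).2 h1ε.le
      · simp only
        rw [ip_smul_right, inv_mul_eq_iff_eq_mul₀ hg0.ne', hg,
          div_mul_cancel₀ _ (mul_pos h1ε (hne w hw1)).ne']
    have h2 := hN ⟨_, hyT, rfl⟩
    simp only [Set.mem_iUnion, Set.mem_ofPred_eq, exists_prop] at h2
    obtain ⟨u, hu, h3⟩ := h2
    rw [ip_smul_right, lt_inv_mul_iff₀ hg0] at h3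
    have h4 := hx' u hu
    have h5 := hne u u.2.1
    nlinarith

end Pool.Agent.GB.H77
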